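import Mathlib
import Pool.Agent.Helper180.FreeMetric

/-!
# A growth estimate in free groups

For non-commuting `u`, `v` there is `k` such that `ζ⁻ᵏ u ζ²ᵏ v ζ⁻ᵏ` is longer than `ζ`, for every
`ζ`.
-/

namespace Pool.Agent.TH71.FreeGrowth

open FreeGroup Pool.Agent.Helper180.FreeMetric

section Growth

variable {α : Type} [DecidableEq α]

/-- The length of the common initial segment. -/
def c (x y : FreeGroup α) : ℕ := lcp x.toWord y.toWord

theorem c_eq (x y : FreeGroup α) : (x⁻¹ * y).norm + 2 * c x y = x.norm + y.norm :=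
  norm_inv_mul x y

theorem c_min (x y z : FreeGroup α) : min (c x y) (c y z) ≤ c x z := lcp_min _ _ _

theorem c_comm (x y : FreeGroup α) : c x y = c y x := lcp_comm _ _

theorem c_le_left (x y : FreeGroup α) : c x y ≤ x.norm := by
  have h1 := c_eq x y
  have h2 := norm_mul_le x (x⁻¹ * y)
  rw [mul_inv_cancel_left] at h2
  omega

theorem c_le_right (x y : FreeGroup α) : c x y ≤ y.norm := by
  rw [c_comm]
  exact c_le_left y x

theorem eq_of_c {x y : FreeGroup α} {l : ℕ} (hx : x.norm = l) (hy : y.norm = l)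
    (h : l ≤ c x y) : x = y := by
  have h1 := c_eq x y
  have h2 : (x⁻¹ * y).norm = 0 := by omega
  rw [FreeGroup.norm_eq_zero] at h2
  exact (inv_mul_eq_one.1 h2)

/-- `2 * P + n * t` is the length of the `n`-th power. -/
def Cyc (z : FreeGroup α) (P t : ℕ) : Prop :=
  1 ≤ t ∧ ∀ n : ℕ, 1 ≤ n → (z ^ n).norm = 2 * P + n * t

theorem exists_cyc {z : FreeGroup α} (hz : z ≠ 1) : ∃ P t, Cyc z P t := by
  refine ⟨(reduceCyclically.conjugator z.toWord).length, (reduceCyclically z.toWord).length,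
    ?_, ?_⟩
  · by_contra hlt
    have h1 : reduceCyclically z.toWord = [] := by
      rw [← List.length_eq_zero_iff]
      omega
    have h2 := reduceCyclically.conj_conjugator_reduceCyclically z.toWord
    rw [h1, List.append_nil] at h2
    apply hz
    rw [← mk_toWord (x := z), ← h2, ← mul_mk, ← inv_mk, mul_inv_cancel]
  · intro n hn
    have h1 := reduceCyclically.reduce_flatten_replicate (isReduced_toWord (x := z)) n
    rw [if_neg (by omega)] at h1
    rw [FreeGroup.norm, toWord_pow, h1]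
    simp only [List.length_append, invRev_length, List.length_flatten, List.map_replicate,
      List.sum_replicate, smul_eq_mul]
    ring

theorem Cyc.inv {z : FreeGroup α} {P t : ℕ} (h : Cyc z P t) : Cyc z⁻¹ P t := by
  refine ⟨h.1, fun n hn => ?_⟩
  rw [inv_pow, norm_inv_eq]
  exact h.2 n hn

theorem Cyc.c_pow {z : FreeGroup α} {P t : ℕ} (h : Cyc z P t) {a b : ℕ} (ha : 1 ≤ a)
    (hab : a < b) : c (z ^ a) (z ^ b) = P + a * t := by
  have h1 := c_eq (z ^ a) (z ^ b)
  have h2 : (z ^ a)⁻¹ * z ^ b = z ^ (b - a) := by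
    rw [inv_mul_eq_iff_eq_mul, ← pow_add]
    congr 1
    omega
  rw [h2, h.2 _ (by omega), h.2 a ha, h.2 b (by omega)] at h1
  obtain ⟨d, rfl⟩ : ∃ d, b = a + d := ⟨b - a, by omega⟩
  rw [Nat.add_sub_cancel_left, add_mul] at h1
  omega

theorem Cyc.c_inv {z : FreeGroup α} {P t : ℕ} (h : Cyc z P t) {b : ℕ}
    (hb : 1 ≤ b) : c z⁻¹ (z ^ b) = P := by
  have h1 := c_eq z⁻¹ (z ^ b)
  have h2 : (z⁻¹)⁻¹ * z ^ b = z ^ (b + 1) := by
    rw [inv_inv, pow_succ']
  have h3 := h.2 1 le_rfl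
  rw [pow_one] at h3
  rw [h2, norm_inv_eq, h.2 _ (by omega), h.2 b hb, h3, add_mul] at h1
  omega

/-- Translation of initial segments of the axis. -/
theorem Cyc.shift {z : FreeGroup α} {P t : ℕ} (h : Cyc z P t) {N l : ℕ} {x : FreeGroup α}
    (hN : 2 ≤ N) (hx : x.norm = l) (hc : l ≤ c x (z ^ N)) (hP : P ≤ l)
    (hl : l ≤ P + (N - 1) * t) : (z * x).norm = l + t ∧ l + t ≤ c (z * x) (z ^ N) := by
  have e1 : c (z ^ (N - 1)) (z ^ N) = P + (N - 1) * t := h.c_pow (by omega) (by omega)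
  have e2 := c_min x (z ^ N) (z ^ (N - 1))
  rw [c_comm (z ^ N) (z ^ (N - 1)), e1] at e2
  have e3 := c_le_left x (z ^ (N - 1))
  have e4 : c x (z ^ (N - 1)) = l := by omega
  have e5 := c_eq x (z ^ (N - 1))
  have e6 := h.c_inv (b := N) (by omega)
  have e7 := c_min z⁻¹ (z ^ N) x
  have e8 := c_min z⁻¹ x (z ^ N)
  have e9 := c_le_right z⁻¹ x
  have e10 := c_le_left x (z ^ N)
  rw [c_comm (z ^ N) x] at e7
  have e11 : c z⁻¹ x = P := by omega
  have e12 := c_eq z⁻¹ x
  rw [inv_inv, norm_inv_eq] at e12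
  have h3 := h.2 1 le_rfl
  rw [pow_one] at h3
  have e13 : (z * x).norm = l + t := by omega
  refine ⟨e13, ?_⟩
  have e14 := c_eq (z * x) (z ^ N)
  have e15 : (z * x)⁻¹ * z ^ N = x⁻¹ * z ^ (N - 1) := by
    obtain ⟨M, rfl⟩ : ∃ M, N = M + 1 := ⟨N - 1, by omega⟩
    rw [Nat.add_sub_cancel, pow_succ']
    group
  rw [e15] at e14
  have h4 := h.2 (N - 1) (by omega)
  have h5 := h.2 N (by omega)
  have h6 : N * t = (N - 1) * t + t := by
    obtain ⟨M, rfl⟩ : ∃ M, N = M + 1 := ⟨N - 1, by omega⟩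
    rw [Nat.add_sub_cancel]
    ring
  omega

/-- Left translation of initial segments. -/
theorem translate {s x y : FreeGroup α} {l : ℕ} (hx : x.norm = l) (hc : l ≤ c x y)
    (hl : c s⁻¹ y ≤ l) : (s * x).norm + 2 * c s⁻¹ y = s.norm + l ∧
      (s * x).norm ≤ c (s * x) (s * y) := by
  have e1 := c_min s⁻¹ x y
  have e2 := c_min s⁻¹ y x
  have e3 := c_le_right s⁻¹ x
  have e4 := c_le_left x y
  rw [c_comm y x] at e2
  have e5 : c s⁻¹ x = c s⁻¹ y := by omega
  have e6 := c_eq s⁻¹ x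
  have e7 := c_eq s⁻¹ y
  have e8 := c_eq x y
  have e9 := c_eq (s * x) (s * y)
  have e10 : (s * x)⁻¹ * (s * y) = x⁻¹ * y := by group
  rw [inv_inv, norm_inv_eq] at e6 e7
  rw [e10] at e9
  omega

/-- Overlap lemma: a long common initial segment forces commutation. -/
theorem commute_of_overlap {z s : FreeGroup α} {P t : ℕ} (h : Cyc z P t) {k j : ℕ}
    (hk : s.norm + 1 ≤ k) (hj : 2 * s.norm + 1 ≤ j)
    (hc : P + s.norm + t ≤ c (z ^ k) (s * z ^ j)) : s * z = z * s := by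
  have ht := h.1
  have g0 := c_le_left s⁻¹ (z ^ j)
  rw [norm_inv_eq] at g0
  obtain ⟨a, ha⟩ : ∃ a, s.norm = a + c s⁻¹ (z ^ j) := ⟨s.norm - c s⁻¹ (z ^ j), by omega⟩
  set g := c s⁻¹ (z ^ j) with hg
  have hkt : s.norm + t ≤ k * t := by
    calc s.norm + t ≤ s.norm * t + t := by nlinarith
      _ = (s.norm + 1) * t := by ring
      _ ≤ k * t := Nat.mul_le_mul_right t hk
  have hjt : s.norm + t ≤ j * t := by
    calc s.norm + t ≤ s.norm * t + t := by nlinarith
      _ = (s.norm + 1) * t := by ring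
      _ ≤ j * t := Nat.mul_le_mul_right t (by omega)
  have hN := h.2 (k + j) (by omega)
  have hNt : (k + j) * t = k * t + j * t := by ring
  have hNt' : (k + j - 1) * t + t = k * t + j * t := by
    obtain ⟨M, hM⟩ : ∃ M, k + j = M + 1 := ⟨k + j - 1, by omega⟩
    rw [← add_mul, hM, Nat.add_sub_cancel]
    ring
  have ck := h.c_pow (a := k) (b := k + j) (by omega) (by omega)
  have cj := h.c_pow (a := j) (b := k + j) (by omega) (by omega)
  -- the two initial segments
  obtain ⟨x, hx1, hx2⟩ := exists_initial (z ^ (k + j)) (P + g) (by omega)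
  obtain ⟨y, hy1, hy2⟩ := exists_initial (z ^ (k + j)) (P + a) (by omega)
  have cx : P + g ≤ c x (z ^ (k + j)) := by
    have := c_eq x (z ^ (k + j))
    omega
  have cy : P + a ≤ c y (z ^ (k + j)) := by
    have := c_eq y (z ^ (k + j))
    omega
  obtain ⟨zx1, zx2⟩ := h.shift (by omega) hx1 cx (by omega) (by omega)
  obtain ⟨zy1, zy2⟩ := h.shift (by omega) hy1 cy (by omega) (by omega)
  -- comparison with the j-th power
  have cxj : P + g ≤ c x (z ^ j) := by
    have := c_min x (z ^ (k + j)) (z ^ j)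
    rw [c_comm (z ^ (k + j)) (z ^ j)] at this
    omega
  have czxj : P + g + t ≤ c (z * x) (z ^ j) := by
    have := c_min (z * x) (z ^ (k + j)) (z ^ j)
    rw [c_comm (z ^ (k + j)) (z ^ j)] at this
    omega
  obtain ⟨sx1, sx2⟩ := translate (s := s) hx1 cxj (by omega)
  obtain ⟨szx1, szx2⟩ := translate (s := s) zx1 czxj (by omega)
  rw [← hg] at sx1 szx1
  have e1 : P + a ≤ c (s * x) (z ^ (k + j)) := by
    have i1 := c_min (s * x) (s * z ^ j) (z ^ k)
    have i2 := c_min (s * x) (z ^ k) (z ^ (k + j))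
    rw [c_comm (s * z ^ j) (z ^ k)] at i1
    omega
  have e2 : P + a + t ≤ c (s * (z * x)) (z ^ (k + j)) := by
    have i1 := c_min (s * (z * x)) (s * z ^ j) (z ^ k)
    have i2 := c_min (s * (z * x)) (z ^ k) (z ^ (k + j))
    rw [c_comm (s * z ^ j) (z ^ k)] at i1
    omega
  have f1 : s * x = y := by
    apply eq_of_c (l := P + a) (by omega) hy1
    have := c_min (s * x) (z ^ (k + j)) y
    rw [c_comm (z ^ (k + j)) y] at this
    omega
  have f2 : s * (z * x) = z * y := by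
    apply eq_of_c (l := P + a + t) (by omega) zy1
    have := c_min (s * (z * x)) (z ^ (k + j)) (z * y)
    rw [c_comm (z ^ (k + j)) (z * y)] at this
    omega
  rw [← f1, ← mul_assoc, ← mul_assoc] at f2
  exact mul_right_cancel f2

theorem norm_le_mul (x y : FreeGroup α) : y.norm ≤ x.norm + (x * y).norm := by
  have := norm_mul_le x⁻¹ (x * y)
  rw [inv_mul_cancel_left, norm_inv_eq] at this
  exact this

theorem norm_le_mul' (x y : FreeGroup α) : x.norm ≤ y.norm + (x * y).norm := by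
  have := norm_mul_le (x * y) y⁻¹
  rw [mul_inv_cancel_right, norm_inv_eq] at this
  omega

/-- Conjugates by high powers are long. -/
theorem conj_long {z s : FreeGroup α} {P t : ℕ} (h : Cyc z P t) {k : ℕ}
    (hk : 2 * s.norm + 1 ≤ k) (hs : s * z ≠ z * s) :
    2 * P + 2 * (k * t) ≤ ((z ^ k)⁻¹ * (s * z ^ k)).norm + 3 * s.norm + 2 * t := by
  have h1 : ¬ (P + s.norm + t ≤ c (z ^ k) (s * z ^ k)) := fun hc =>
    hs (commute_of_overlap h (by omega) hk hc)
  have h2 := c_eq (z ^ k) (s * z ^ k)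
  have h3 := h.2 k (by omega)
  have h4 := norm_le_mul s (z ^ k)
  omega

end Growth

section Main

variable {ι : Type}

theorem not_comm_inv {u z : FreeGroup ι} (h : u * z ≠ z * u) : u * z⁻¹ ≠ z⁻¹ * u := by
  intro h1
  apply h
  have h2 : Commute u z⁻¹ := h1
  exact (Commute.inv_right_iff.1 h2).eq

/-- The growth estimate. -/
theorem growth [DecidableEq ι] {u v : FreeGroup ι} (huv : u * v ≠ v * u) :
    ∃ k : ℕ, ∀ z : FreeGroup ι,
      z.norm < ((z ^ k)⁻¹ * u * z ^ (2 * k) * v * (z ^ k)⁻¹).norm := by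
  obtain ⟨k, hk⟩ : ∃ k, k = 3 * (u.norm + v.norm) + 8 := ⟨_, rfl⟩
  refine ⟨k, fun z => ?_⟩
  by_cases hz : z = 1
  · rw [hz]
    simp only [one_pow, inv_one, one_mul, mul_one, FreeGroup.norm_one]
    rw [Nat.pos_iff_ne_zero, Ne, FreeGroup.norm_eq_zero]
    intro h1
    apply huv
    rw [h1]
    rw [mul_eq_one_iff_eq_inv] at h1
    rw [h1, mul_inv_cancel]
  obtain ⟨P, t, h⟩ := exists_cyc hz
  have ht := h.1
  have hz1 := h.2 1 le_rfl
  rw [pow_one] at hz1
  have hkt : 3 * (u.norm + v.norm) + 8 * t ≤ k * t := by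
    rw [hk]
    nlinarith
  have e2k : (2 * k) * t = 2 * (k * t) := by ring
  by_cases hu : u * z = z * u
  · -- u commutes with z
    have hv : v * z ≠ z * v := by
      intro hv
      exact huv (comm_trans hz hu hv)
    have hv' := not_comm_inv hv
    have h1 := conj_long (s := v) h.inv (k := k) (by omega) hv'
    have e1 : (z ^ k)⁻¹ * u * z ^ (2 * k) * v * (z ^ k)⁻¹ =
        u * ((z⁻¹ ^ k)⁻¹ * (v * z⁻¹ ^ k)) := by
      have h2 : Commute u z := hu
      have h3 : Commute (z ^ k)⁻¹ u := ((h2.pow_right k).symm.inv_left)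
      rw [h3.eq, two_mul, pow_add, inv_pow]
      group
    rw [e1]
    have h4 := norm_le_mul u ((z⁻¹ ^ k)⁻¹ * (v * z⁻¹ ^ k))
    omega
  by_cases hv : v * z = z * v
  · have h1 := conj_long (s := u) h (k := k) (by omega) hu
    have e1 : (z ^ k)⁻¹ * u * z ^ (2 * k) * v * (z ^ k)⁻¹ =
        ((z ^ k)⁻¹ * (u * z ^ k)) * v := by
      have h2 : Commute v z := hv
      have h3 : Commute v (z ^ k)⁻¹ := ((h2.pow_right k).inv_right)
      rw [mul_assoc _ v, h3.eq, two_mul, pow_add]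
      group
    rw [e1]
    have h4 := norm_le_mul' ((z ^ k)⁻¹ * (u * z ^ k)) v
    omega
  -- neither commutes
  set A := (z ^ k)⁻¹ * (u * z ^ (2 * k)) with hA
  have c1 : ¬ (P + u.norm + t ≤ c (z ^ k) (u * z ^ (2 * k))) := fun hc =>
    hu (commute_of_overlap h (by omega) (by omega) hc)
  have a1 := c_eq (z ^ k) (u * z ^ (2 * k))
  rw [← hA, h.2 k (by omega)] at a1
  have a2 := norm_le_mul u (z ^ (2 * k))
  rw [h.2 (2 * k) (by omega), e2k] at a2
  have hv' := not_comm_inv hv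
  have c2 : ¬ (P + v.norm + t ≤ c (z⁻¹ ^ (2 * k)) (v * z⁻¹ ^ k)) := fun hc =>
    hv' (commute_of_overlap h.inv (by omega) (by omega) hc)
  have a3 := c_eq (z⁻¹ ^ (2 * k)) A⁻¹
  have e3 : (z⁻¹ ^ (2 * k))⁻¹ * A⁻¹ = u⁻¹ * z ^ k := by
    rw [hA, inv_pow]
    group
  rw [e3, norm_inv_eq, h.inv.2 (2 * k) (by omega), e2k] at a3
  have a4 := norm_mul_le u⁻¹ (z ^ k)
  rw [norm_inv_eq, h.2 k (by omega)] at a4
  have a5 := c_min (z⁻¹ ^ (2 * k)) A⁻¹ (v * z⁻¹ ^ k)
  have a6 := c_eq A⁻¹ (v * z⁻¹ ^ k)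
  have e4 : (z ^ k)⁻¹ * u * z ^ (2 * k) * v * (z ^ k)⁻¹ = (A⁻¹)⁻¹ * (v * z⁻¹ ^ k) := by
    rw [hA, inv_pow]
    group
  rw [← e4, norm_inv_eq] at a6
  have a7 := norm_le_mul v (z⁻¹ ^ k)
  rw [h.inv.2 k (by omega)] at a7
  omega

/-- If `b` commutes with its conjugate by `u` then `u` commutes with `b`. -/
theorem comm_of_conj {u b : FreeGroup ι} (hb : b ≠ 1)
    (h : (u⁻¹ * b * u) * b = b * (u⁻¹ * b * u)) : u * b = b * u := by
  classical
  obtain ⟨g, hg, hc⟩ := centralizer_cyclic b hb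
  -- the conjugate of g commutes with g
  have hb' : u⁻¹ * b * u ≠ 1 := by
    intro h1
    apply hb
    have : b = u * (u⁻¹ * b * u) * u⁻¹ := by group
    rw [this, h1]
    group
  have hgu : (u⁻¹ * g * u) * (u⁻¹ * b * u) = (u⁻¹ * b * u) * (u⁻¹ * g * u) := by
    have : (u⁻¹ * g * u) * (u⁻¹ * b * u) = u⁻¹ * (g * b) * u := by group
    rw [this, hg]
    group
  obtain ⟨n, hn⟩ := hc _ h
  obtain ⟨m, hm⟩ := hc b rfl
  -- g commutes with the conjugate of b
  have h2 : g * (u⁻¹ * b * u) = (u⁻¹ * b * u) * g := by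
    rw [hn]
    exact (Commute.refl g).zpow_right n
  have h3 : (u⁻¹ * g * u) * g = g * (u⁻¹ * g * u) := comm_trans hb' hgu h2
  -- the conjugate of g commutes with b
  have h4 : (u⁻¹ * g * u) * b = b * (u⁻¹ * g * u) := by
    have : Commute (u⁻¹ * g * u) b := by
      rw [hm]
      exact Commute.zpow_right h3 m
    exact this.eq
  obtain ⟨p, hp⟩ := hc _ h4
  -- the other conjugate
  have h5 : (u * g * u⁻¹) * g = g * (u * g * u⁻¹) := by
    have h6 : u * ((u⁻¹ * g * u) * g) * u⁻¹ = u * (g * (u⁻¹ * g * u)) * u⁻¹ := by rw [h3]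
    have h7 : u * ((u⁻¹ * g * u) * g) * u⁻¹ = g * (u * g * u⁻¹) := by group
    have h8 : u * (g * (u⁻¹ * g * u)) * u⁻¹ = (u * g * u⁻¹) * g := by group
    rw [h7, h8] at h6
    exact h6.symm
  have h9 : (u * g * u⁻¹) * b = b * (u * g * u⁻¹) := by
    have : Commute (u * g * u⁻¹) b := by
      rw [hm]
      exact Commute.zpow_right h5 m
    exact this.eq
  obtain ⟨q, hq⟩ := hc _ h9
  have h10 : g = g ^ (p * q) := by
    have h11 : g = u * (u⁻¹ * g * u) * u⁻¹ := by group
    have h12 : u * (u⁻¹ * g * u) * u⁻¹ = (u * g * u⁻¹) ^ p := by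
      rw [hp, conj_zpow]
    rw [hq, ← zpow_mul, mul_comm q p] at h12
    exact h11.trans h12
  have hg1 : g ≠ 1 := by
    intro h13
    apply hb
    rw [hm, h13, one_zpow]
  have h14 : p * q = 1 := by
    by_contra hne
    have h15 : g ^ (p * q - 1) = 1 := by
      rw [zpow_sub, ← h10]
      simp
    have h16 : (p * q - 1) ≠ 0 := sub_ne_zero.2 hne
    exact h16 ((IsMulTorsionFree.zpow_eq_one_iff_right hg1).1 h15)
  have key : u * g = g * u → u * b = b * u := by
    intro h17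
    have h18 : Commute u g := h17
    rw [hm]
    exact (h18.zpow_right m).eq
  apply key
  rcases Int.mul_eq_one_iff_eq_one_or_neg_one.1 h14 with ⟨h19, _⟩ | ⟨h19, _⟩
  · rw [h19, zpow_one] at hp
    calc u * g = u * (u⁻¹ * g * u) := by rw [hp]
      _ = g * u := by group
  · rw [h19, zpow_neg_one] at hp
    by_cases hu2 : u * u = 1
    · have h20 : u = 1 := by
        rw [← sq] at hu2
        exact (pow_eq_one_iff_left two_ne_zero).1 hu2
      rw [h20, one_mul, mul_one]
    · apply comm_trans hu2 (mul_assoc u u u).symm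
      have h21 : g⁻¹ = (u⁻¹ * g * u) := hp.symm
      have h22 : u⁻¹ * g⁻¹ * u = g := by
        have : u⁻¹ * g⁻¹ * u = (u⁻¹ * g * u)⁻¹ := by group
        rw [this, hp, inv_inv]
      have h23 : (u * u)⁻¹ * g * (u * u) = g := by
        have : (u * u)⁻¹ * g * (u * u) = u⁻¹ * (u⁻¹ * g * u) * u := by group
        rw [this, hp, h22]
      calc g * (u * u) = (u * u) * ((u * u)⁻¹ * g * (u * u)) := by group
        _ = u * u * g := by rw [h23]

end Main

end Pool.Agent.TH71.FreeGrowth
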