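import Mathlib

/-!
# A class of groups defined by an infinite game

Positions are quadruples `(a, us, w, v)`. The class consists of the groups in which the first
player wins from every position. It is shown to be closed under homomorphic images, normal
subgroups, normal joins and Cartesian products, and to contain the abelian groups.
-/

namespace Pool.Agent.TH71.Game

universe u v

section Basic

variable {G : Type u} [Group G]

/-- The commutator `u⁻¹ u^a`. -/
def cm (u a : G) : G := u⁻¹ * (a⁻¹ * u * a)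

/-- Iterated commutator of `a` with the entries of a list (head first). -/
def val : G → List G → G
  | a, [] => a
  | a, u :: us => val (cm u a) us

/-- The conjugated list which appears in the product formula for `val`. -/
def cjl : G → List G → List G
  | _, [] => []
  | a, u :: us => (a⁻¹ * u * a) :: cjl (cm u a) us

/-- Positions of the game. -/
structure Pos (G : Type u) where
  a : G
  us : List G
  w : G
  v : G

/-- The value of a position. -/
def bb (p : Pos G) : G := cm p.w (val p.a p.us)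

/-- First half of a round: the element `a` is factored as `a' * (a'⁻¹ * a)` and one of the two
factors is selected. -/
def half1 (p : Pos G) (a' : G) (o : Bool) : Pos G :=
  if o then ⟨a', p.us, p.w, p.v⟩
  else ⟨a'⁻¹ * p.a, cjl a' p.us, (val a' p.us)⁻¹ * p.w * val a' p.us, p.v⟩

/-- Second half of a round: the new parameters are the value of the position and one of its
conjugates. -/
def half2 (q : Pos G) (o : Bool) : Pos G :=
  ⟨cm ((q.us ++ [q.w]).headD 1) q.a, (q.us ++ [q.w]).tail,
    (if o then q.w else q.v)⁻¹ * bb q * (if o then q.w else q.v), bb q⟩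

/-- A full round. -/
def move (p : Pos G) (a' : G) (o : Bool × Bool) : Pos G := half2 (half1 p a' o.1) o.2

/-- The position after `m` rounds. -/
def play : ℕ → Pos G → (List (Bool × Bool) → G) → (ℕ → Bool × Bool) → Pos G
  | 0, p, _, _ => p
  | m + 1, p, s, h => play m (move p (s []) (h 0)) (fun l => s (h 0 :: l)) (fun n => h (n + 1))

/-- The equations to be solved along a play. -/
def Eqs (P : ℕ → Pos G) (k : ℕ → ℕ) (z : ℕ → G) : Prop :=
  ∀ m, z m = (z (m + 1) ^ k m)⁻¹ * (P m).w * z (m + 1) ^ (2 * k m) * (P m).v *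
    (z (m + 1) ^ k m)⁻¹

/-- The first player wins from the position `p`. -/
def Win (p : Pos G) : Prop :=
  ∃ s : List (Bool × Bool) → G, ∀ h : ℕ → Bool × Bool, ∀ k : ℕ → ℕ, ∃ z : ℕ → G,
    Eqs (fun m => play m p s h) k z

end Basic

/-- The class of groups in which the first player wins from every position. -/
def InK (G : Type u) [Group G] : Prop := ∀ p : Pos G, Win p

/-! ## Homomorphisms -/

section Hom

variable {G : Type u} [Group G] {H : Type v} [Group H] (f : G →* H)

theorem map_cm (u a : G) : f (cm u a) = cm (f u) (f a) := by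
  simp [cm]

theorem map_val : ∀ (us : List G) (a : G), f (val a us) = val (f a) (us.map f)
  | [], _ => rfl
  | u :: us, a => by
    simp only [val, List.map_cons]
    rw [map_val us, map_cm]

theorem map_cjl : ∀ (us : List G) (a : G), (cjl a us).map f = cjl (f a) (us.map f)
  | [], _ => rfl
  | u :: us, a => by
    simp only [cjl, List.map_cons]
    rw [map_cjl us, map_cm]
    simp

/-- The image of a position. -/
def mp (p : Pos G) : Pos H := ⟨f p.a, p.us.map f, f p.w, f p.v⟩

theorem map_bb (p : Pos G) : f (bb p) = bb (mp f p) := by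
  simp only [bb, mp]
  rw [map_cm, map_val]

theorem mp_half1 (p : Pos G) (a' : G) (o : Bool) :
    mp f (half1 p a' o) = half1 (mp f p) (f a') o := by
  cases o
  · simp only [half1, mp, Bool.false_eq_true, if_false]
    rw [map_cjl]
    simp [map_val]
  · simp [half1, mp]

theorem mp_half2 (q : Pos G) (o : Bool) : mp f (half2 q o) = half2 (mp f q) o := by
  have h1 : f ((q.us ++ [q.w]).headD 1) = ((q.us.map f) ++ [f q.w]).headD 1 := by
    cases q.us <;> simp
  have h2 : ((q.us ++ [q.w]).tail).map f = ((q.us.map f) ++ [f q.w]).tail := by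
    rw [List.map_tail]
    simp
  cases o
  · simp only [half2, mp, Bool.false_eq_true, if_false]
    rw [map_cm, h1, h2, map_mul, map_mul, map_inv, map_bb]
    rfl
  · simp only [half2, mp, if_true]
    rw [map_cm, h1, h2, map_mul, map_mul, map_inv, map_bb]
    rfl

theorem mp_move (p : Pos G) (a' : G) (o : Bool × Bool) :
    mp f (move p a' o) = move (mp f p) (f a') o := by
  simp only [move]
  rw [mp_half2, mp_half1]

theorem mp_play : ∀ (m : ℕ) (p : Pos G) (s : List (Bool × Bool) → G) (h : ℕ → Bool × Bool),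
    mp f (play m p s h) = play m (mp f p) (fun l => f (s l)) h
  | 0, _, _, _ => rfl
  | m + 1, p, s, h => by
    simp only [play]
    rw [mp_play m, mp_move]

theorem win_mp {p : Pos G} (hp : Win p) : Win (mp f p) := by
  obtain ⟨s, hs⟩ := hp
  refine ⟨fun l => f (s l), fun h k => ?_⟩
  obtain ⟨z, hz⟩ := hs h k
  refine ⟨fun m => f (z m), fun m => ?_⟩
  have h1 := congrArg f (hz m)
  simp only [← mp_play f]
  simp only [map_mul, map_inv, map_pow] at h1
  exact h1

theorem InK.image (hf : Function.Surjective f) (hG : InK G) : InK H := by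
  intro p
  obtain ⟨a, ha⟩ := hf p.a
  obtain ⟨w, hw⟩ := hf p.w
  obtain ⟨v, hv⟩ := hf p.v
  obtain ⟨us, hus⟩ : ∃ us : List G, us.map f = p.us := by
    have := List.map_surjective_iff.mpr hf
    exact this p.us
  have h1 := win_mp f (hG ⟨a, us, w, v⟩)
  have h2 : mp f ⟨a, us, w, v⟩ = p := by
    simp only [mp]
    rw [ha, hw, hv, hus]
  rwa [h2] at h1

end Hom

/-! ## Products -/

theorem InK.pi {ι : Type v} {G : ι → Type u} [∀ i, Group (G i)] (h : ∀ i, InK (G i)) :
    InK (∀ i, G i) := by
  intro p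
  have h1 := fun i => h i (mp (Pi.evalMonoidHom G i) p)
  choose s hs using h1
  refine ⟨fun l i => s i l, fun hh k => ?_⟩
  have h2 := fun i => hs i hh k
  choose z hz using h2
  refine ⟨fun m i => z i m, fun m => ?_⟩
  funext i
  have h3 := hz i m
  have h4 : mp (Pi.evalMonoidHom G i) (play m p (fun l i => s i l) hh) =
      play m (mp (Pi.evalMonoidHom G i) p) (s i) hh := mp_play _ _ _ _ _
  simp only [← h4] at h3
  exact h3

/-! ## Elementary winning positions -/

section Elem

variable {G : Type u} [Group G]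

theorem win_of_move {p : Pos G} (a' : G) (h : ∀ o, Win (move p a' o)) : Win p := by
  choose s hs using h
  refine ⟨fun l => match l with
    | [] => a'
    | o :: l => s o l, fun h k => ?_⟩
  obtain ⟨z, hz⟩ := hs (h 0) (fun n => h (n + 1)) (fun n => k (n + 1))
  refine ⟨fun m => match m with
    | 0 => (z 0 ^ k 0)⁻¹ * p.w * z 0 ^ (2 * k 0) * p.v * (z 0 ^ k 0)⁻¹
    | m + 1 => z m, fun m => ?_⟩
  cases m with
  | zero => rfl
  | succ m => exact hz m

theorem cm_one (u : G) : cm u 1 = 1 := by simp [cm]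

theorem val_one : ∀ us : List G, val 1 us = 1
  | [] => rfl
  | u :: us => by
    simp only [val]
    rw [cm_one, val_one us]

theorem bb_of_one {p : Pos G} (hp : p.a = 1) : bb p = 1 := by
  simp only [bb]
  rw [hp, val_one, cm_one]

theorem half1_one {p : Pos G} (hp : p.a = 1) (o : Bool) : (half1 p 1 o).a = 1 := by
  cases o
  · simp [half1, hp]
  · simp [half1]

theorem half2_one {q : Pos G} (hq : q.a = 1) (o : Bool) :
    (half2 q o).a = 1 ∧ (half2 q o).w = 1 ∧ (half2 q o).v = 1 := by
  refine ⟨?_, ?_, ?_⟩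
  · simp only [half2]
    rw [hq, cm_one]
  · simp only [half2]
    rw [bb_of_one hq, mul_one, inv_mul_cancel]
  · exact bb_of_one hq

theorem move_one {p : Pos G} (hp : p.a = 1) (o : Bool × Bool) :
    (move p 1 o).a = 1 ∧ (move p 1 o).w = 1 ∧ (move p 1 o).v = 1 :=
  half2_one (half1_one hp o.1) o.2

theorem play_one : ∀ (m : ℕ) (p : Pos G) (h : ℕ → Bool × Bool), p.a = 1 →
    (p.w = 1 ∧ p.v = 1) → (play m p (fun _ => 1) h).w = 1 ∧ (play m p (fun _ => 1) h).v = 1
  | 0, _, _, _, hp => hp
  | m + 1, p, h, ha, _ => by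
    have h1 := move_one ha (h 0)
    exact play_one m _ _ h1.1 h1.2

theorem win_of_one {p : Pos G} (hp : p.a = 1) : Win p := by
  refine ⟨fun _ => 1, fun h k => ?_⟩
  refine ⟨fun m => if m = 0 then p.w * p.v else 1, fun m => ?_⟩
  cases m with
  | zero => simp [play]
  | succ m =>
    have h1 := move_one hp (h 0)
    have h2 := play_one m (move p 1 (h 0)) (fun n => h (n + 1)) h1.1 h1.2
    simp only [play]
    rw [h2.1, h2.2]
    simp

theorem win_of_half2_one {q : Pos G} (hq : q.a = 1) (o : Bool) : Win (half2 q o) :=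
  win_of_one (half2_one hq o).1

/-- It suffices to answer with `a' = a` and to win the positions obtained by the second half of
the round. -/
theorem win_of_self {p : Pos G} (h : ∀ o, Win (half2 p o)) : Win p := by
  apply win_of_move p.a
  rintro ⟨o1, o2⟩
  cases o1
  · apply win_of_half2_one
    simp [half1]
  · exact h o2

theorem InK.of_comm (hG : ∀ a b : G, a * b = b * a) : InK G := by
  intro p
  apply win_of_self
  intro o
  apply win_of_one
  simp only [half2, cm]
  rw [hG _ p.a, mul_inv_cancel_left, inv_mul_cancel]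

end Elem

/-! ## Normal joins -/

section Join

variable {G : Type u} [Group G]

theorem cm_mem_of_right {N : Subgroup G} [hN : N.Normal] (u : G) {a : G} (ha : a ∈ N) :
    cm u a ∈ N := by
  have h1 : cm u a = (u⁻¹ * a⁻¹ * u⁻¹⁻¹) * a := by simp only [cm]; group
  rw [h1]
  exact N.mul_mem (hN.conj_mem _ (N.inv_mem ha) _) ha

theorem cm_mem_of_left {N : Subgroup G} [hN : N.Normal] {u : G} (hu : u ∈ N) (a : G) :
    cm u a ∈ N := by
  have h1 : cm u a = u⁻¹ * (a⁻¹ * u * a⁻¹⁻¹) := by simp only [cm]; group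
  rw [h1]
  exact N.mul_mem (N.inv_mem hu) (hN.conj_mem _ hu _)

theorem val_mem {N : Subgroup G} [hN : N.Normal] : ∀ (us : List G) {a : G}, a ∈ N → val a us ∈ N
  | [], _, ha => ha
  | u :: us, _, ha => val_mem us (cm_mem_of_right u ha)

theorem bb_mem {N : Subgroup G} [hN : N.Normal] {p : Pos G} (hp : p.a ∈ N) : bb p ∈ N :=
  cm_mem_of_right _ (val_mem _ hp)

theorem conj_mem' {N : Subgroup G} [hN : N.Normal] {x : G} (hx : x ∈ N) (g : G) :
    g⁻¹ * x * g ∈ N := by
  have := hN.conj_mem x hx g⁻¹
  simpa using this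

theorem half2_a_mem {N : Subgroup G} [hN : N.Normal] {p : Pos G} (hp : p.a ∈ N) (o : Bool) :
    (half2 p o).a ∈ N := cm_mem_of_right _ hp

theorem half2_w_mem {N : Subgroup G} [hN : N.Normal] {p : Pos G} (hp : p.a ∈ N) (o : Bool) :
    (half2 p o).w ∈ N := conj_mem' (bb_mem hp) _

theorem half2_v_mem {N : Subgroup G} [hN : N.Normal] {p : Pos G} (hp : p.a ∈ N) (o : Bool) :
    (half2 p o).v ∈ N := bb_mem hp

theorem win_of_all_mem {N : Subgroup G} (hK : InK N) {p : Pos G} (ha : p.a ∈ N)
    (hus : ∀ x ∈ p.us, x ∈ N) (hw : p.w ∈ N) (hv : p.v ∈ N) : Win p := by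
  have h1 := win_mp N.subtype (hK ⟨⟨p.a, ha⟩, p.us.attach.map (fun x => ⟨x.1, hus x.1 x.2⟩),
    ⟨p.w, hw⟩, ⟨p.v, hv⟩⟩)
  have h2 : mp N.subtype ⟨⟨p.a, ha⟩, p.us.attach.map (fun x => ⟨x.1, hus x.1 x.2⟩),
    ⟨p.w, hw⟩, ⟨p.v, hv⟩⟩ = p := by
    simp only [mp, Subgroup.subtype_apply, List.map_map]
    have h3 : List.map ((⇑N.subtype) ∘ fun x : {x // x ∈ p.us} => (⟨x.1, hus x.1 x.2⟩ : N))
        p.us.attach = p.us := by
      have h4 : ((⇑N.subtype) ∘ fun x : {x // x ∈ p.us} => (⟨x.1, hus x.1 x.2⟩ : N)) =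
          Subtype.val := by
        funext x
        rfl
      rw [h4]
      exact List.attach_map_subtype_val _
    rw [h3]
  rwa [h2] at h1

theorem win_of_mem_aux {N : Subgroup G} [hN : N.Normal] (hK : InK N) :
    ∀ (n : ℕ) (p : Pos G), p.a ∈ N → (∀ x ∈ p.us.drop n, x ∈ N) → p.w ∈ N → p.v ∈ N → Win p
  | 0, _, ha, hus, hw, hv => win_of_all_mem hK ha hus hw hv
  | n + 1, p, ha, hus, hw, hv => by
    apply win_of_self
    intro o
    apply win_of_mem_aux hK n _ (half2_a_mem ha o) _ (half2_w_mem ha o) (half2_v_mem ha o)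
    intro x hx
    simp only [half2] at hx
    rw [← List.drop_one, List.drop_drop] at hx
    rw [add_comm 1 n] at hx
    rw [List.drop_append] at hx
    rcases List.mem_append.1 hx with h1 | h1
    · exact hus x h1
    · have h2 := List.mem_of_mem_drop h1
      rw [List.mem_singleton] at h2
      rw [h2]
      exact hw

theorem win_of_mem {N : Subgroup G} [hN : N.Normal] (hK : InK N) {p : Pos G} (ha : p.a ∈ N) :
    Win p := by
  apply win_of_self
  intro o
  apply win_of_mem_aux hK (half2 p o).us.length _ (half2_a_mem ha o) _ (half2_w_mem ha o)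
    (half2_v_mem ha o)
  intro x hx
  rw [List.drop_length] at hx
  exact absurd hx List.not_mem_nil

/-- A normal subgroup is good if all positions with first entry in it are winning. -/
def Good (M : Subgroup G) : Prop := M.Normal ∧ ∀ p : Pos G, p.a ∈ M → Win p

theorem Good.sup {M M' : Subgroup G} (h : Good M) (h' : Good M') : Good (M ⊔ M') := by
  have i1 := h.1
  have i2 := h'.1
  refine ⟨inferInstance, ?_⟩
  intro p hp
  rw [Subgroup.mem_sup_of_normal_right] at hp
  obtain ⟨y, hy, z, hz, hyz⟩ := hp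
  apply win_of_move y
  rintro ⟨o1, o2⟩
  cases o1
  · apply h'.2
    apply half2_a_mem
    simp only [half1, Bool.false_eq_true, if_false]
    rw [← hyz]
    simpa using hz
  · apply h.2
    apply half2_a_mem
    exact hy

theorem good_bot : Good (⊥ : Subgroup G) :=
  ⟨inferInstance, fun _ hp => win_of_one (Subgroup.mem_bot.1 hp)⟩

theorem InK.join (h : sSup {N : Subgroup G | N.Normal ∧ InK N} = ⊤) : InK G := by
  let A : Subgroup G :=
    { carrier := {a | ∃ M : Subgroup G, Good M ∧ a ∈ M}
      mul_mem' := by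
        rintro a b ⟨M, hM, ha⟩ ⟨M', hM', hb⟩
        exact ⟨M ⊔ M', hM.sup hM', Subgroup.mul_mem_sup ha hb⟩
      one_mem' := ⟨⊥, good_bot, Subgroup.one_mem _⟩
      inv_mem' := by
        rintro a ⟨M, hM, ha⟩
        exact ⟨M, hM, M.inv_mem ha⟩ }
  have h1 : sSup {N : Subgroup G | N.Normal ∧ InK N} ≤ A := by
    apply sSup_le
    rintro N ⟨hN, hK⟩ a ha
    exact ⟨N, ⟨hN, fun p hp => win_of_mem hK hp⟩, ha⟩
  rw [h] at h1
  intro p
  obtain ⟨M, hM, ha⟩ := h1 (Subgroup.mem_top p.a)
  exact hM.2 p ha

end Join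

/-! ## Normal subgroups -/

section Shadow

variable {G : Type u} [Group G]

/-- Winning with all moves and solutions in a subgroup. -/
def WinIn (S : Subgroup G) (p : Pos G) : Prop :=
  ∃ s : List (Bool × Bool) → G, (∀ l, s l ∈ S) ∧ ∀ h : ℕ → Bool × Bool, ∀ k : ℕ → ℕ,
    ∃ z : ℕ → G, (∀ m, z m ∈ S) ∧ Eqs (fun m => play m p s h) k z

theorem win_of_winIn {S : Subgroup G} {p : Pos S} (h : WinIn S (mp S.subtype p)) : Win p := by
  obtain ⟨s, hs, hw⟩ := h
  refine ⟨fun l => ⟨s l, hs l⟩, fun h k => ?_⟩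
  obtain ⟨z, hz, he⟩ := hw h k
  refine ⟨fun m => ⟨z m, hz m⟩, fun m => ?_⟩
  apply Subtype.ext
  have h1 := he m
  have h2 : mp S.subtype (play m p (fun l => ⟨s l, hs l⟩) h) = play m (mp S.subtype p) s h :=
    mp_play _ _ _ _ _
  simp only [← h2] at h1
  exact h1

/-- The position after a finite history. -/
def after : List (Bool × Bool) → Pos G → (List (Bool × Bool) → G) → Pos G
  | [], p, _ => p
  | o :: l, p, s => after l (move p (s []) o) (fun l' => s (o :: l'))

/-- The shadow of a position. -/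
def sh (p : Pos G) : Pos G := ⟨cm (p.us.headD 1) p.a, p.us.tail, p.w, p.v⟩

theorem bb_sh {p : Pos G} (hp : p.us ≠ []) : bb (sh p) = bb p := by
  obtain ⟨a, us, w, v⟩ := p
  cases us with
  | nil => exact absurd rfl hp
  | cons u us => rfl

theorem cm_mul (u a b : G) : cm u (a * b) = cm u a * cm (a⁻¹ * u * a) b := by
  simp only [cm]
  group

theorem half1_sh {p : Pos G} (hp : p.us ≠ []) (a' : G) (o : Bool) :
    half1 (sh p) (cm (p.us.headD 1) a') o = sh (half1 p a' o) := by
  obtain ⟨a, us, w, v⟩ := p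
  cases us with
  | nil => exact absurd rfl hp
  | cons u us =>
    cases o
    · simp only [half1, sh, Bool.false_eq_true, if_false, cjl, val, List.headD_cons,
        List.tail_cons]
      congr 1
      have h1 := cm_mul u a' (a'⁻¹ * a)
      rw [mul_inv_cancel_left] at h1
      rw [h1, inv_mul_cancel_left]
    · simp [half1, sh]

theorem half1_us_ne {p : Pos G} (hp : p.us ≠ []) (a' : G) (o : Bool) : (half1 p a' o).us ≠ [] := by
  obtain ⟨a, us, w, v⟩ := p
  cases us with
  | nil => exact absurd rfl hp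
  | cons u us =>
    cases o
    · simp [half1, cjl]
    · simp [half1]

theorem half2_us_ne {p : Pos G} (hp : p.us ≠ []) (o : Bool) : (half2 p o).us ≠ [] := by
  obtain ⟨a, us, w, v⟩ := p
  cases us with
  | nil => exact absurd rfl hp
  | cons u us => simp [half2]

theorem half2_sh {p : Pos G} (hp : p.us ≠ []) (o : Bool) : half2 (sh p) o = sh (half2 p o) := by
  have h1 := bb_sh hp
  obtain ⟨a, us, w, v⟩ := p
  cases us with
  | nil => exact absurd rfl hp
  | cons u us =>
    simp only [half2, h1]
    simp [sh]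

theorem move_us_ne {p : Pos G} (hp : p.us ≠ []) (a' : G) (o : Bool × Bool) :
    (move p a' o).us ≠ [] := half2_us_ne (half1_us_ne hp a' o.1) o.2

theorem move_sh {p : Pos G} (hp : p.us ≠ []) (a' : G) (o : Bool × Bool) :
    move (sh p) (cm (p.us.headD 1) a') o = sh (move p a' o) := by
  simp only [move]
  rw [half1_sh hp, half2_sh (half1_us_ne hp a' o.1)]

theorem play_sh : ∀ (m : ℕ) (p : Pos G) (s : List (Bool × Bool) → G) (h : ℕ → Bool × Bool),
    p.us ≠ [] →
    play m (sh p) (fun l => cm ((after l p s).us.headD 1) (s l)) h = sh (play m p s h)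
  | 0, _, _, _, _ => rfl
  | m + 1, p, s, h, hp => by
    have h1 := play_sh m (move p (s []) (h 0)) (fun l => s (h 0 :: l)) (fun n => h (n + 1))
      (move_us_ne hp _ _)
    simp only [play]
    rw [← h1]
    simp only [after]
    rw [move_sh hp]

/-- All entries except possibly the first one lie in the subgroup. -/
def Ins (N : Subgroup G) (p : Pos G) : Prop := (∀ x ∈ p.us, x ∈ N) ∧ p.w ∈ N ∧ p.v ∈ N

theorem cjl_mem {N : Subgroup G} [hN : N.Normal] : ∀ (us : List G) (a : G),
    (∀ x ∈ us, x ∈ N) → ∀ x ∈ cjl a us, x ∈ N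
  | [], _, _, _, hx => absurd hx List.not_mem_nil
  | u :: us, a, h, x, hx => by
    simp only [cjl, List.mem_cons] at hx
    rcases hx with h1 | h1
    · rw [h1]
      exact conj_mem' (h u List.mem_cons_self) a
    · exact cjl_mem us (cm u a) (fun y hy => h y (List.mem_cons_of_mem _ hy)) x h1

theorem Ins.half1 {N : Subgroup G} [hN : N.Normal] {p : Pos G} (hp : Ins N p) (a' : G)
    (o : Bool) : Ins N (half1 p a' o) := by
  obtain ⟨h1, h2, h3⟩ := hp
  cases o
  · exact ⟨cjl_mem _ _ h1, conj_mem' h2 _, h3⟩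
  · exact ⟨h1, h2, h3⟩

theorem Ins.half2 {N : Subgroup G} [hN : N.Normal] {p : Pos G} (hp : Ins N p)
    (o : Bool) : Ins N (half2 p o) := by
  obtain ⟨h1, h2, h3⟩ := hp
  have h4 : bb p ∈ N := cm_mem_of_left h2 _
  refine ⟨?_, conj_mem' h4 _, h4⟩
  intro x hx
  have h5 := List.mem_of_mem_tail hx
  rcases List.mem_append.1 h5 with h6 | h6
  · exact h1 x h6
  · rw [List.mem_singleton] at h6
    rw [h6]
    exact h2

theorem Ins.move {N : Subgroup G} [hN : N.Normal] {p : Pos G} (hp : Ins N p) (a' : G)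
    (o : Bool × Bool) : Ins N (move p a' o) := (hp.half1 a' o.1).half2 o.2

theorem Ins.after {N : Subgroup G} [hN : N.Normal] : ∀ (l : List (Bool × Bool)) (p : Pos G)
    (s : List (Bool × Bool) → G), Ins N p → Ins N (after l p s)
  | [], _, _, hp => hp
  | _ :: l, _, _, hp => Ins.after l _ _ (hp.move _ _)

theorem Ins.play {N : Subgroup G} [hN : N.Normal] : ∀ (m : ℕ) (p : Pos G)
    (s : List (Bool × Bool) → G) (h : ℕ → Bool × Bool), Ins N p → Ins N (play m p s h)
  | 0, _, _, _, hp => hp
  | m + 1, _, _, _, hp => Ins.play m _ _ _ (hp.move _ _)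

theorem Ins.headD {N : Subgroup G} {p : Pos G} (hp : Ins N p) : p.us.headD 1 ∈ N := by
  obtain ⟨h1, _, _⟩ := hp
  obtain ⟨a, us, w, v⟩ := p
  cases us with
  | nil => exact N.one_mem
  | cons u us => exact h1 u List.mem_cons_self

theorem winIn_sh {N : Subgroup G} [hN : N.Normal] {p : Pos G} (hp : Win p) (hus : p.us ≠ [])
    (hi : Ins N p) : WinIn N (sh p) := by
  obtain ⟨s, hs⟩ := hp
  refine ⟨fun l => cm ((after l p s).us.headD 1) (s l), fun l => cm_mem_of_left
    (Ins.after l p s hi).headD _, fun h k => ?_⟩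
  obtain ⟨z, hz⟩ := hs h k
  refine ⟨z, fun m => ?_, fun m => ?_⟩
  · rw [hz m]
    have h1 := Ins.play m p s h hi
    have h2 : (z (m + 1) ^ k m)⁻¹ * (play m p s h).w * z (m + 1) ^ (2 * k m) *
        (play m p s h).v * (z (m + 1) ^ k m)⁻¹ =
        ((z (m + 1) ^ k m)⁻¹ * (play m p s h).w * z (m + 1) ^ k m) *
        (z (m + 1) ^ k m * (play m p s h).v * (z (m + 1) ^ k m)⁻¹) := by
      rw [two_mul, pow_add]
      group
    rw [h2]
    exact N.mul_mem (conj_mem' h1.2.1 _) (hN.conj_mem _ h1.2.2 _)
  · have h1 := hz m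
    simp only [play_sh m p s h hus]
    exact h1

theorem InK.normal (hG : InK G) {N : Subgroup G} (hN : N.Normal) : InK N := by
  intro p
  apply win_of_self
  intro o
  apply win_of_winIn
  set P : Pos G := ⟨(p.a : G), (p.us ++ [p.w]).map N.subtype, ((half2 p o).w : G),
    ((half2 p o).v : G)⟩ with hP
  have h1 : mp N.subtype (half2 p o) = sh P := by
    have h2 : ((p.us ++ [p.w]).map N.subtype).headD 1 =
        N.subtype ((p.us ++ [p.w]).headD 1) := by
      cases p.us <;> simp
    simp only [sh, hP, h2]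
    have h3 : ((p.us ++ [p.w]).map N.subtype).tail = ((p.us ++ [p.w]).tail).map N.subtype :=
      List.map_tail.symm
    rw [h3]
    rfl
  rw [h1]
  apply winIn_sh (hG P)
  · simp [hP]
  · refine ⟨?_, (half2 p o).w.2, (half2 p o).v.2⟩
    intro x hx
    obtain ⟨y, _, hy⟩ := List.mem_map.1 hx
    rw [← hy]
    exact y.2

end Shadow

end Pool.Agent.TH71.Game
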