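import Pool.Agent.TH123.Log.Points

/-!
# Job 425 (LT-S1): forgetting log structures is cocontinuous, `u0` is continuous
-/

open CategoryTheory Limits Opposite AlgebraicGeometry
set_option autoImplicit false
set_option backward.isDefEq.respectTransparency false
noncomputable section
namespace Pool.Agent.TH123

theorem W_cocontinuous :
    W.IsCocontinuous (LogScheme.logEtale.over sQ) (Scheme.etaleTopology.over S0) where
  cover_lift := by
    intro T S hS
    rw [GrothendieckTopology.mem_over_iff] at hS ⊢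
    have h1 : (Sieve.overEquiv (W.obj T) S).functorPullback LogScheme.forgetLog ∈
        LogScheme.logEtale T.left := by
      refine (GrothendieckTopology.mem_sInf _ _).2 fun J hJ => ?_
      exact hJ.1 _ _ hS
    refine LogScheme.logEtale.superset_covering ?_ h1
    intro Z f hf
    have hf' : (Sieve.overEquiv (W.obj T) S) (LogScheme.Hom.f f) := hf
    rw [Sieve.overEquiv_iff] at hf' ⊢
    exact hf'

namespace J425

variable {X X' : Scheme.{0}}

/-- the log scheme with the hollow structure given by `ℚ≥0` -/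
abbrev hl (X : Scheme.{0}) : LogScheme := (hollow X (Multiplicative ℚ≥0)).log

/-- the morphism of hollow log schemes given by a morphism of schemes -/
abbrev hm (g : X' ⟶ X) : hl X' ⟶ hl X :=
  nilHom (hollow X' (Multiplicative ℚ≥0)) (hollow X (Multiplicative ℚ≥0)) g (MonoidHom.id _)
    (hollow_comp g (MonoidHom.id _) fun _ h => h)

lemma on_eq (g : X' ⟶ X) (V : Over X') :
    (hollow X' (Multiplicative ℚ≥0)).on V =
      (hollow X (Multiplicative ℚ≥0)).on (Over.mk (V.hom ≫ g)) := by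
  refine MonoidHom.ext fun p => ?_
  have h1 := hollow_comp g (MonoidHom.id (Multiplicative ℚ≥0)) (fun _ h => h) p
  have h2 : (hollow X' (Multiplicative ℚ≥0)).a p =
    g.appTop.hom ((hollow X (Multiplicative ℚ≥0)).a p) := h1
  change V.hom.appTop.hom ((hollow X' (Multiplicative ℚ≥0)).a p) =
    (V.hom ≫ g).appTop.hom ((hollow X (Multiplicative ℚ≥0)).a p)
  rw [h2, Scheme.Hom.comp_appTop]
  rfl

/-- the lift of a morphism -/
def lift {Z : LogScheme} (g : X' ⟶ X) (F : Z ⟶ hl X) (k : Z.X ⟶ X') (hk : k ≫ g = F.f) :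
    Z ⟶ hl X' where
  f := k
  φ U V a h := F.φ U (Over.mk (V.hom ≫ g)) a (by
    change a ≫ V.hom ≫ g = U.hom ≫ F.f
    rw [← hk, ← Category.assoc, h, Category.assoc])
  nat₁ {T₁ T₂} b V a h h' m := F.nat₁ b (Over.mk (V.hom ≫ g)) a _ _ m
  nat₂ U {V₁ V₂} b a h h' m := F.nat₂ U (T₁' := Over.mk (V₁.hom ≫ g)) (T₂' := Over.mk (V₂.hom ≫ g))
    (Over.homMk b.left (by
      change b.left ≫ V₂.hom ≫ g = V₁.hom ≫ g
      rw [← Category.assoc, Over.w b])) a _ _ m
  α U V a h m := by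
    refine (F.α U (Over.mk (V.hom ≫ g)) a _ m).trans ?_
    change a.appTop.hom ((m.1 : Γ(V.left, ⊤)) *
      ev (T := V.left) ((hollow X (Multiplicative ℚ≥0)).on (Over.mk (V.hom ≫ g)) :
        Multiplicative ℚ≥0 →* Γ(V.left, ⊤)) m.2) =
      a.appTop.hom ((m.1 : Γ(V.left, ⊤)) * ev ((hollow X' (Multiplicative ℚ≥0)).on V) m.2)
    rw [on_eq g V]

@[simp] lemma lift_f {Z : LogScheme} (g : X' ⟶ X) (F : Z ⟶ hl X) (k : Z.X ⟶ X')
    (hk : k ≫ g = F.f) : (lift g F k hk).f = k := rfl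

lemma lift_comp {Z : LogScheme} (g : X' ⟶ X) (F : Z ⟶ hl X) (k : Z.X ⟶ X') (hk : k ≫ g = F.f) :
    lift g F k hk ≫ hm g = F := by
  refine LogScheme.Hom.ext' hk fun U V a e e' m => ?_
  rw [LogScheme.comp_φ]
  have h0 : (a ≫ V.hom : U.left ⟶ X) = (U.hom ≫ k) ≫ g := by
    rw [e', ← hk, Category.assoc]
  let b : Over.mk ((U.hom ≫ k) ≫ g) ⟶ V := Over.homMk a h0
  have h2 := F.nat₂ U b (𝟙 _) (by
    change 𝟙 _ ≫ (U.hom ≫ k) ≫ g = U.hom ≫ F.f
    rw [Category.id_comp, Category.assoc, hk]) (by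
    change (𝟙 _ ≫ a) ≫ V.hom = U.hom ≫ F.f
    rw [Category.id_comp, e']) m
  refine Eq.trans ?_ (h2.trans ?_)
  · rfl
  · congr 1

lemma hom_ext {Z : LogScheme} (g : X' ⟶ X) (G₁ G₂ : Z ⟶ hl X') (hf : G₁.f = G₂.f)
    (h : G₁ ≫ hm g = G₂ ≫ hm g) : G₁ = G₂ := by
  refine LogScheme.Hom.ext' hf fun U V a e e' m => ?_
  have key : ∀ (G : Z ⟶ hl X') (e : a ≫ V.hom = U.hom ≫ G.f)
      (e₁ : a ≫ (Over.mk (V.hom ≫ g)).hom = U.hom ≫ (G ≫ hm g).f),
      (G ≫ hm g).φ U (Over.mk (V.hom ≫ g)) a e₁ m = G.φ U V a e m := by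
    intro G e e₁
    rw [LogScheme.comp_φ]
    let b : Over.mk (U.hom ≫ G.f) ⟶ V := Over.homMk a e
    have h2 := G.nat₂ U b (𝟙 _) (by
      change 𝟙 _ ≫ (U.hom ≫ G.f) = U.hom ≫ G.f
      rw [Category.id_comp]) (by
      change (𝟙 _ ≫ a) ≫ V.hom = U.hom ≫ G.f
      rw [Category.id_comp, e]) m
    refine Eq.trans ?_ (h2.trans ?_)
    · rfl
    · congr 1
  have e₁ : ∀ (G : Z ⟶ hl X') (_ : a ≫ V.hom = U.hom ≫ G.f),
      a ≫ (Over.mk (V.hom ≫ g)).hom = U.hom ≫ (G ≫ hm g).f := by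
    intro G e
    change a ≫ V.hom ≫ g = U.hom ≫ G.f ≫ g
    rw [← Category.assoc, e, Category.assoc]
  have h3 : ∀ (F F' : Z ⟶ hl X) (_ : F = F') (W' : Over X) (l : U.left ⟶ W'.left)
      (e : l ≫ W'.hom = U.hom ≫ F.f) (e' : l ≫ W'.hom = U.hom ≫ F'.f) (m : (hl X).Γm W'),
      F.φ U W' l e m = F'.φ U W' l e' m := by
    rintro F _ rfl W' l e e' m
    rfl
  exact (key G₁ e (e₁ G₁ e)).symm.trans ((h3 _ _ h _ _ _ _ _).trans (key G₂ e' (e₁ G₂ e')))

end J425

open J425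

theorem u0_coverPreserving :
    CoverPreserving (Scheme.etaleTopology.over S0) (LogScheme.logEtale.over sQ) u0 where
  cover_preserve := by
    intro T S hS
    rw [GrothendieckTopology.mem_over_iff] at hS ⊢
    have h1 : Sieve.functorPullback (X := (u0.obj T).left) LogScheme.forgetLog
        (Sieve.overEquiv T S) ∈ LogScheme.logEtale (u0.obj T).left := by
      refine (GrothendieckTopology.mem_sInf _ _).2 fun J hJ => ?_
      exact hJ.1 (u0.obj T).left _ hS
    refine LogScheme.logEtale.superset_covering ?_ h1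
    intro Z F hF
    have hF' : (Sieve.overEquiv T S) (LogScheme.Hom.f F) := hF
    rw [Sieve.overEquiv_iff] at hF' ⊢
    let g : Over.mk (F.f ≫ T.hom) ⟶ T := Over.homMk F.f
    let G : Z ⟶ hl Z.X := lift F.f F (𝟙 _) (Category.id_comp _)
    have hG : G ≫ (u0.map g).left = F := lift_comp F.f F (𝟙 _) (Category.id_comp _)
    let q : Over.mk (F ≫ (u0.obj T).hom) ⟶ u0.obj (Over.mk (F.f ≫ T.hom)) :=
      Over.homMk G (by
        change G ≫ (u0.obj (Over.mk (F.f ≫ T.hom))).hom = F ≫ (u0.obj T).hom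
        rw [← Over.w (u0.map g), ← Category.assoc, hG])
    refine ⟨_, g, q, hF', ?_⟩
    apply Over.OverMorphism.ext
    exact hG.symm

theorem u0_compatiblePreserving :
    CompatiblePreserving (LogScheme.logEtale.over sQ) u0 where
  compatible := by
    intro ℱ Z T x hx Y₁ Y₂ X f₁ f₂ g₁ g₂ hg₁ hg₂ e
    let p₁ : W.obj X ⟶ Y₁ := Over.homMk f₁.left.f (congrArg LogScheme.Hom.f (Over.w f₁))
    let p₂ : W.obj X ⟶ Y₂ := Over.homMk f₂.left.f (congrArg LogScheme.Hom.f (Over.w f₂))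
    have hp : p₁ ≫ g₁ = p₂ ≫ g₂ := by
      apply Over.OverMorphism.ext
      exact congrArg (fun k : X ⟶ u0.obj Z => k.left.f) e
    let G₁ : X.left ⟶ hl X.left.X := lift f₁.left.f f₁.left (𝟙 _) (Category.id_comp _)
    let G₂ : X.left ⟶ hl X.left.X := lift f₂.left.f f₂.left (𝟙 _) (Category.id_comp _)
    have h₁ : G₁ ≫ (u0.map p₁).left = f₁.left :=
      lift_comp f₁.left.f f₁.left (𝟙 _) (Category.id_comp _)
    have h₂ : G₂ ≫ (u0.map p₂).left = f₂.left :=
      lift_comp f₂.left.f f₂.left (𝟙 _) (Category.id_comp _)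
    have hG : G₁ = G₂ := by
      refine hom_ext (p₁ ≫ g₁).left G₁ G₂ rfl ?_
      change G₁ ≫ (u0.map (p₁ ≫ g₁)).left = G₂ ≫ (u0.map (p₁ ≫ g₁)).left
      have e1 : G₁ ≫ (u0.map (p₁ ≫ g₁)).left = (f₁ ≫ u0.map g₁).left := by
        rw [Functor.map_comp, Over.comp_left, Over.comp_left, ← Category.assoc, h₁]
      have e2 : G₂ ≫ (u0.map (p₁ ≫ g₁)).left = (f₂ ≫ u0.map g₂).left := by
        rw [hp, Functor.map_comp, Over.comp_left, Over.comp_left, ← Category.assoc, h₂]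
      rw [e1, e2, e]
    let q : X ⟶ u0.obj (W.obj X) := Over.homMk G₁ (by
      rw [← Over.w (u0.map p₁), ← Category.assoc, h₁]
      exact Over.w f₁)
    have hq₁ : q ≫ u0.map p₁ = f₁ := by
      apply Over.OverMorphism.ext
      exact h₁
    have hq₂ : q ≫ u0.map p₂ = f₂ := by
      apply Over.OverMorphism.ext
      change G₁ ≫ (u0.map p₂).left = f₂.left
      rw [hG, h₂]
    have h3 := hx p₁ p₂ hg₁ hg₂ hp
    have h4 := congrArg (ℱ.obj.map q.op) h3
    rw [← hq₁, ← hq₂, op_comp, op_comp, Functor.map_comp, Functor.map_comp]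
    exact h4

theorem u0_continuous :
    u0.IsContinuous (Scheme.etaleTopology.over S0) (LogScheme.logEtale.over sQ) :=
  Functor.isContinuous_of_coverPreserving u0_compatiblePreserving u0_coverPreserving

end Pool.Agent.TH123
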