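import Pool.Agent.TH123.Log.InvSys

set_option autoImplicit false

noncomputable section

open TensorProduct

namespace Pool.Agent.TH123

lemma InvSys.detect_mem_span {ℓ : ℕ} [Fact ℓ.Prime] (S : InvSys ℓ) (W : Set S.L) (z : S.V)
    (h : z ∈ Submodule.span ℚ_[ℓ] (InvSys.toV '' W)) :
    ∃ c : ℤ_[ℓ], c ≠ 0 ∧ ∃ x ∈ Submodule.span ℤ_[ℓ] W, c • z = InvSys.toV x := by
  induction h using Submodule.span_induction with
  | mem z hz =>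
    obtain ⟨w, hw, rfl⟩ := hz
    exact ⟨1, one_ne_zero, w, Submodule.subset_span hw, one_smul _ _⟩
  | zero =>
    exact ⟨1, one_ne_zero, 0, Submodule.zero_mem _, by simp [InvSys.toV]⟩
  | add z₁ z₂ _ _ h₁ h₂ =>
    obtain ⟨c₁, hc₁, x₁, hx₁, e₁⟩ := h₁
    obtain ⟨c₂, hc₂, x₂, hx₂, e₂⟩ := h₂
    refine ⟨c₁ * c₂, mul_ne_zero hc₁ hc₂, c₂ • x₁ + c₁ • x₂,
      Submodule.add_mem _ (Submodule.smul_mem _ _ hx₁) (Submodule.smul_mem _ _ hx₂), ?_⟩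
    have a₁ : (InvSys.toV (c₂ • x₁ + c₁ • x₂) : S.V) =
        c₂ • InvSys.toV x₁ + c₁ • InvSys.toV x₂ := by
      simp only [InvSys.toV, TensorProduct.tmul_add, TensorProduct.tmul_smul]
    rw [a₁, ← e₁, ← e₂, smul_add, ← mul_smul, ← mul_smul, mul_comm c₁ c₂]
  | smul q z _ hz =>
    obtain ⟨c, hc, x, hx, e⟩ := hz
    obtain ⟨⟨a, b⟩, hab⟩ := IsLocalization.surj (nonZeroDivisors ℤ_[ℓ]) q
    refine ⟨b.1 * c, mul_ne_zero (nonZeroDivisors.ne_zero b.2) hc, a • x,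
      Submodule.smul_mem _ _ hx, ?_⟩
    have a₁ : (InvSys.toV (a • x) : S.V) = a • InvSys.toV x := by
      simp only [InvSys.toV, TensorProduct.tmul_smul]
    rw [a₁, ← e]
    have h2 : (b.1 * c) • q • z = (algebraMap ℤ_[ℓ] ℚ_[ℓ] (b.1 * c) * q) • z := by
      rw [mul_smul (algebraMap ℤ_[ℓ] ℚ_[ℓ] (b.1 * c)), algebraMap_smul]
    have h3 : a • c • z = (algebraMap ℤ_[ℓ] ℚ_[ℓ] a * algebraMap ℤ_[ℓ] ℚ_[ℓ] c) • z := by
      rw [mul_smul (algebraMap ℤ_[ℓ] ℚ_[ℓ] a), algebraMap_smul, algebraMap_smul]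
    rw [h2, h3, ← hab, map_mul]
    congr 1
    ring

theorem InvSys.detect {ℓ : ℕ} [Fact ℓ.Prime] (S : InvSys ℓ) (W : Set S.L) (v : S.L)
    (h : InvSys.toV v ∈ Submodule.span ℚ_[ℓ] (InvSys.toV '' W)) :
    ∃ k : ℕ, ∀ n : ℕ, (ℓ ^ k) • v.1 n ∈ AddSubgroup.closure ((fun w : S.L => w.1 n) '' W) := by
  obtain ⟨c, hc, x, hx, e⟩ := S.detect_mem_span W _ h
  have e' : (TensorProduct.mk ℤ_[ℓ] ℚ_[ℓ] S.L 1) (c • v) =
      (TensorProduct.mk ℤ_[ℓ] ℚ_[ℓ] S.L 1) x := by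
    rw [map_smul]
    exact e
  have : IsLocalizedModule (nonZeroDivisors ℤ_[ℓ]) (TensorProduct.mk ℤ_[ℓ] ℚ_[ℓ] S.L 1) :=
    (isLocalizedModule_iff_isBaseChange (nonZeroDivisors ℤ_[ℓ]) ℚ_[ℓ] _).2
      (TensorProduct.isBaseChange _ _ _)
  obtain ⟨d, hd⟩ := (IsLocalizedModule.eq_iff_exists (nonZeroDivisors ℤ_[ℓ])
    (TensorProduct.mk ℤ_[ℓ] ℚ_[ℓ] S.L 1)).1 e'
  have hd0 : d.1 ≠ 0 := nonZeroDivisors.ne_zero d.2
  have hdc : d.1 * c ≠ 0 := mul_ne_zero hd0 hc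
  have hmem : (d.1 * c) • v ∈ Submodule.span ℤ_[ℓ] W := by
    have : (d.1 * c) • v = d.1 • x := by
      rw [mul_smul]; exact hd
    rw [this]
    exact Submodule.smul_mem _ _ hx
  obtain ⟨u, k, hu⟩ : ∃ (u : ℤ_[ℓ]ˣ) (k : ℕ), d.1 * c = u * (ℓ : ℤ_[ℓ]) ^ k :=
    ⟨PadicInt.unitCoeff hdc, _, PadicInt.unitCoeff_spec hdc⟩
  have hmem2 : ((ℓ : ℤ_[ℓ]) ^ k) • v ∈ Submodule.span ℤ_[ℓ] W := by
    have : ((ℓ : ℤ_[ℓ]) ^ k) • v = (↑u⁻¹ : ℤ_[ℓ]) • ((d.1 * c) • v) := by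
      rw [hu, ← mul_smul, ← mul_assoc, Units.inv_mul, one_mul]
    rw [this]
    exact Submodule.smul_mem _ _ hmem
  refine ⟨k, fun n => ?_⟩
  have key : ∀ y ∈ Submodule.span ℤ_[ℓ] W,
      y.1 n ∈ AddSubgroup.closure ((fun w : S.L => w.1 n) '' W) := by
    intro y hy
    induction hy using Submodule.span_induction with
    | mem y hy => exact AddSubgroup.subset_closure ⟨y, hy, rfl⟩
    | zero => exact AddSubgroup.zero_mem _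
    | add y₁ y₂ _ _ h₁ h₂ => exact AddSubgroup.add_mem _ h₁ h₂
    | smul a y _ h => 
      rw [InvSys.smul_apply]
      exact AddSubgroup.nsmul_mem _ h _
  have h1 := key _ hmem2
  rw [InvSys.smul_apply] at h1
  have h2 : ((ℓ : ℤ_[ℓ]) ^ k).appr n • v.1 n =
      (ℓ ^ k) • v.1 n := by
    apply S.smul_eq_of_modEq
    apply InvSys.modEq_of_toZModPow
    rw [InvSys.toZModPow_appr]
    simp
  rwa [h2] at h1

end Pool.Agent.TH123
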